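import Pool.Agent.Results.MP_7876a1_co.SeventeenSimplices

set_option autoImplicit false

/-!
# Neighborly families of `17 * 2 ^ (d - 4)` simplices in every dimension `d ≥ 4`

The seventeen neighborly `4`-simplices of the starting file all have interior points in the
`2`-plane `x₂ = 1 - 3 x₀ + x₁`, `x₃ = 1 - x₀ + 3 x₁`. A neighborly family of `m` simplices of
dimension `d ≥ 4` all of which have interior points in one `2`-plane yields a neighborly family of
`2 m` simplices of dimension `d + 1` with the same property: stretch one copy of the family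
transversally to the plane, and another copy, turned so that the two planes are complementary; any
member of the first copy then crosses any member of the second one. Erect the cones over the members
of the first copy on one side of the hyperplane `ℝ ^ d` of `ℝ ^ (d + 1)`, with one common apex, and
the cones over the members of the second copy on the other side.
-/

namespace Pool.Agent.Results.MP_7876a1_co.AllDimensions

open Pool.Agent.Results.MP_7876a1_co.SeventeenSimplices

section General

variable {V W U : Type} [AddCommGroup V] [Module ℝ V] [AddCommGroup W] [Module ℝ W]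
  [AddCommGroup U] [Module ℝ U] {ι ι₁ ι₂ κ : Type}

/-- affine functions on a real vector space -/
def Aff (f : V → ℝ) : Prop :=
  ∀ (x y : V) (s t : ℝ), s + t = 1 → f (s • x + t • y) = s * f x + t * f y

/-- affine maps between real vector spaces -/
def AffMap (A : W → V) : Prop :=
  ∀ (x y : W) (s t : ℝ), s + t = 1 → A (s • x + t • y) = s • A x + t • A y

/-- A family of simplices, given by facet functions `f i r` and vertices `p i r`, any two of which
have a common facet hyperplane `f i r = 0`, with a point `c` in the relative interiors of the facets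
of both. -/
structure Data (V : Type) [AddCommGroup V] [Module ℝ V] (ι κ : Type) where
  /-- facet functions -/
  f : ι → κ → V → ℝ
  /-- vertices -/
  p : ι → κ → V
  aff : ∀ i r, Aff (f i r)
  zero : ∀ i r q, r ≠ q → f i r (p i q) = 0
  pos : ∀ i r, 0 < f i r (p i r)
  wall : ∀ i j, i ≠ j → ∃ r r' c, (∀ x, f j r' x = - f i r x) ∧ f i r c = 0 ∧
    (∀ q, q ≠ r → 0 < f i q c) ∧ (∀ q, q ≠ r' → 0 < f j q c)

/-- image of a family under an affine isomorphism -/
def Data.transport (D : Data V ι κ) (A : W → V) (B : V → W) (hAB : ∀ x, A (B x) = x)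
    (hA : AffMap A) : Data W ι κ where
  f i r x := D.f i r (A x)
  p i r := B (D.p i r)
  aff i r := by
    intro x y s t h
    show D.f i r (A _) = _
    rw [hA _ _ _ _ h, D.aff i r _ _ _ _ h]
  zero i r q h := by
    show D.f i r (A (B _)) = 0
    rw [hAB]
    exact D.zero i r q h
  pos i r := by
    show 0 < D.f i r (A (B _))
    rw [hAB]
    exact D.pos i r
  wall i j h := by
    obtain ⟨r, r', c, h1, h2, h3, h4⟩ := D.wall i j h
    refine ⟨r, r', B c, fun x => h1 _, ?_, ?_, ?_⟩
    · show D.f i r (A (B _)) = 0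
      rw [hAB]; exact h2
    · intro q hq
      show 0 < D.f i q (A (B _))
      rw [hAB]; exact h3 q hq
    · intro q hq
      show 0 < D.f j q (A (B _))
      rw [hAB]; exact h4 q hq

/-- facet functions of the cones with apex `(0, σ)` -/
def coneF (D : Data V ι κ) (σ : ℝ) (i : ι) : Option κ → V × ℝ → ℝ
  | none => fun x => σ * x.2
  | some r => fun x => D.f i r x.1 - σ * x.2 * D.f i r 0

/-- vertices of the cones with apex `(0, σ)` -/
def coneP (D : Data V ι κ) (σ : ℝ) (i : ι) : Option κ → V × ℝ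
  | none => (0, σ)
  | some r => (D.p i r, 0)

lemma aff_half {f : V → ℝ} (hf : Aff f) (c : V) : f ((1 / 2 : ℝ) • c) = (f c + f 0) / 2 := by
  have h := hf c 0 (1 / 2) (1 / 2) (by norm_num)
  rw [smul_zero, add_zero] at h
  rw [h]; ring

/-- The cones with the common apex `(0, σ)`, `σ = ± 1`, over the members of a family. -/
def Data.cone (D : Data V ι κ) (σ : ℝ) (hσ : σ * σ = 1) : Data (V × ℝ) ι (Option κ) where
  f := coneF D σ
  p := coneP D σ
  aff i o := by
    intro x y s t h
    cases o with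
    | none =>
      show σ * (s * x.2 + t * y.2) = s * (σ * x.2) + t * (σ * y.2)
      ring
    | some r =>
      show D.f i r (s • x.1 + t • y.1) - σ * (s * x.2 + t * y.2) * D.f i r 0 =
        s * (D.f i r x.1 - σ * x.2 * D.f i r 0) + t * (D.f i r y.1 - σ * y.2 * D.f i r 0)
      rw [D.aff i r _ _ _ _ h]
      ring
  zero i o o' h := by
    cases o with
    | none =>
      cases o' with
      | none => exact absurd rfl h
      | some q =>
        show σ * 0 = 0
        ring
    | some r =>
      cases o' with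
      | none =>
        show D.f i r 0 - σ * σ * D.f i r 0 = 0
        rw [hσ]; ring
      | some q =>
        show D.f i r (D.p i q) - σ * 0 * D.f i r 0 = 0
        rw [D.zero i r q (fun h' => h (by rw [h']))]
        ring
  pos i o := by
    cases o with
    | none =>
      show 0 < σ * σ
      rw [hσ]; norm_num
    | some r =>
      show 0 < D.f i r (D.p i r) - σ * 0 * D.f i r 0
      have := D.pos i r
      linarith [this]
  wall i j h := by
    obtain ⟨r, r', c, h1, h2, h3, h4⟩ := D.wall i j h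
    have hval : ∀ k q, coneF D σ k (some q) ((1 / 2 : ℝ) • c, σ / 2) = D.f k q c / 2 := by
      intro k q
      show D.f k q ((1 / 2 : ℝ) • c) - σ * (σ / 2) * D.f k q 0 = _
      rw [aff_half (D.aff k q)]
      have : σ * (σ / 2) = 1 / 2 := by
        rw [← mul_div_assoc, hσ]
      rw [this]; ring
    have hnone : ∀ k, 0 < coneF D σ k none ((1 / 2 : ℝ) • c, σ / 2) := by
      intro k
      show 0 < σ * (σ / 2)
      rw [← mul_div_assoc, hσ]; norm_num
    refine ⟨some r, some r', ((1 / 2 : ℝ) • c, σ / 2), ?_, ?_, ?_, ?_⟩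
    · intro x
      show D.f j r' x.1 - σ * x.2 * D.f j r' 0 = -(D.f i r x.1 - σ * x.2 * D.f i r 0)
      rw [h1, h1]; ring
    · rw [hval, h2]; ring
    · intro q hq
      cases q with
      | none => exact hnone i
      | some q =>
        rw [hval]
        exact half_pos (h3 q (fun h' => hq (by rw [h'])))
    · intro q hq
      cases q with
      | none => exact hnone j
      | some q =>
        rw [hval]
        exact half_pos (h4 q (fun h' => hq (by rw [h'])))

/-- The union of two families whose members also abut pairwise. -/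
def Data.union (D : Data V ι₁ κ) (D' : Data V ι₂ κ)
    (hx : ∀ i j, ∃ r r' c, (∀ x, D'.f j r' x = - D.f i r x) ∧ D.f i r c = 0 ∧
      (∀ q, q ≠ r → 0 < D.f i q c) ∧ (∀ q, q ≠ r' → 0 < D'.f j q c)) : Data V (ι₁ ⊕ ι₂) κ where
  f := Sum.elim D.f D'.f
  p := Sum.elim D.p D'.p
  aff i r := by
    cases i with
    | inl i => exact D.aff i r
    | inr i => exact D'.aff i r
  zero i r q h := by
    cases i with
    | inl i => exact D.zero i r q h
    | inr i => exact D'.zero i r q h
  pos i r := by
    cases i with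
    | inl i => exact D.pos i r
    | inr i => exact D'.pos i r
  wall i j h := by
    cases i with
    | inl i =>
      cases j with
      | inl j => exact D.wall i j (fun h' => h (by rw [h']))
      | inr j => exact hx i j
    | inr i =>
      cases j with
      | inl j =>
        obtain ⟨r, r', c, h1, h2, h3, h4⟩ := hx j i
        refine ⟨r', r, c, ?_, ?_, h4, h3⟩
        · intro x
          show D.f j r x = - D'.f i r' x
          rw [h1]; ring
        · show D'.f i r' c = 0
          rw [h1, h2]; ring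
      | inr j => exact D'.wall i j (fun h' => h (by rw [h']))

/-- the plane -/
abbrev Pl := ℝ × ℝ

/-- All members of the family have interior points in the plane `Pl × 0`. -/
def Stab (D : Data (Pl × U) ι κ) : Prop := ∀ i, ∃ π : Pl, ∀ r, 0 < D.f i r (π, 0)

lemma small {a : ℝ} (b : ℝ) (ha : 0 < a) :
    ∀ᶠ μ in nhdsWithin (0 : ℝ) (Set.Ioi 0), 0 < (1 - μ) * a + μ * b := by
  have h1 : Filter.Tendsto (fun μ : ℝ => (1 - μ) * a + μ * b) (nhds 0)
      (nhds ((1 - 0) * a + 0 * b)) := (Continuous.tendsto (by fun_prop) 0)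
  have h2 : (0 : ℝ) < (1 - 0) * a + 0 * b := by linarith
  exact nhdsWithin_le_nhds (h1.eventually (lt_mem_nhds h2))

lemma small' {a : ℝ} (b : ℝ) (ha : 0 < a) :
    ∀ᶠ ε in nhdsWithin (0 : ℝ) (Set.Ioi 0), 0 < a + ε * b := by
  filter_upwards [small (a + b) ha] with ε h
  linarith

/-- **Doubling.** -/
theorem step [Finite ι] [Finite κ] (D : Data (Pl × (Pl × U)) ι κ) (hD : Stab D) :
    ∃ D' : Data (Pl × (Pl × (U × ℝ))) (ι ⊕ ι) (Option κ), Stab D' := by
  choose π hπ using hD
  -- a bound for the points in the plane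
  obtain ⟨C, hC⟩ : ∃ C : ℝ, ∀ i, |(π i).1| < C := by
    obtain ⟨B, hB⟩ := (Set.finite_range fun i => |(π i).1|).bddAbove
    exact ⟨B + 1, fun i => by
      have := hB (Set.mem_range_self i)
      linarith [this]⟩
  set c : Pl := (2 * C, 0) with hc
  -- the stretching factor
  have key : ∀ (i : ι) (w : Pl), ∀ᶠ μ in nhdsWithin (0 : ℝ) (Set.Ioi 0),
      ∀ r, 0 < D.f i r (π i, (μ • w, 0)) := by
    intro i w
    rw [Filter.eventually_all]
    intro r
    filter_upwards [small (D.f i r (π i, (w, 0))) (hπ i r)] with μ h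
    have h1 := D.aff i r (π i, 0) (π i, (w, 0)) (1 - μ) μ (by ring)
    have h2 : (1 - μ) • ((π i, 0) : Pl × (Pl × U)) + μ • (π i, (w, 0)) = (π i, (μ • w, 0)) := by
      ext <;> simp <;> ring
    rw [h2] at h1
    rw [h1]
    exact h
  have hev : ∀ᶠ μ in nhdsWithin (0 : ℝ) (Set.Ioi 0), 0 < μ ∧
      (∀ i j r, 0 < D.f i r (π i, (μ • π j, 0))) ∧
      (∀ i r, 0 < D.f i r (π i, (μ • (π i + c), 0))) ∧
      (∀ i r, 0 < D.f i r (π i, (μ • (π i - c), 0))) := by
    refine Filter.Eventually.and self_mem_nhdsWithin (Filter.Eventually.and ?_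
      (Filter.Eventually.and ?_ ?_))
    · rw [Filter.eventually_all]
      intro i
      rw [Filter.eventually_all]
      intro j
      exact key i (π j)
    · rw [Filter.eventually_all]
      intro i
      exact key i _
    · rw [Filter.eventually_all]
      intro i
      exact key i _
  obtain ⟨μ, hμ, h1, h2, h3⟩ := hev.exists
  have hμ0 : μ ≠ 0 := hμ.ne'
  -- the two stretched copies
  let F₁ : Data (Pl × (Pl × U)) ι κ := D.transport
    (fun x => (x.1, (μ • x.2.1, μ • x.2.2)))
    (fun x => (x.1, (μ⁻¹ • x.2.1, μ⁻¹ • x.2.2)))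
    (by
      intro x
      simp only [smul_smul, mul_inv_cancel₀ hμ0, one_smul])
    (by
      intro x y s t h
      refine Prod.ext rfl (Prod.ext ?_ ?_)
      · show μ • (s • x.2.1 + t • y.2.1) = s • μ • x.2.1 + t • μ • y.2.1
        module
      · show μ • (s • x.2.2 + t • y.2.2) = s • μ • x.2.2 + t • μ • y.2.2
        module)
  let F₂ : Data (Pl × (Pl × U)) ι κ := D.transport
    (fun x => (x.2.1, (μ • x.1, μ • x.2.2)))
    (fun x => (μ⁻¹ • x.2.1, (x.1, μ⁻¹ • x.2.2)))
    (by
      intro x
      simp only [smul_smul, mul_inv_cancel₀ hμ0, one_smul])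
    (by
      intro x y s t h
      refine Prod.ext rfl (Prod.ext ?_ ?_)
      · show μ • (s • x.1 + t • y.1) = s • μ • x.1 + t • μ • y.1
        module
      · show μ • (s • x.2.2 + t • y.2.2) = s • μ • x.2.2 + t • μ • y.2.2
        module)
  have hF₁ : ∀ i r x, F₁.f i r x = D.f i r (x.1, (μ • x.2.1, μ • x.2.2)) := fun i r x => rfl
  have hF₂ : ∀ i r x, F₂.f i r x = D.f i r (x.2.1, (μ • x.1, μ • x.2.2)) := fun i r x => rfl
  let G₁ := F₁.cone 1 (by norm_num)
  let G₂ := F₂.cone (-1) (by norm_num)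
  have hG₁ : ∀ i r x, G₁.f i (some r) x = F₁.f i r x.1 - 1 * x.2 * F₁.f i r 0 :=
    fun i r x => rfl
  have hG₂ : ∀ i r x, G₂.f i (some r) x = F₂.f i r x.1 - (-1) * x.2 * F₂.f i r 0 :=
    fun i r x => rfl
  have hG₁n : ∀ i x, G₁.f i none x = 1 * x.2 := fun i x => rfl
  have hG₂n : ∀ i x, G₂.f i none x = (-1) * x.2 := fun i x => rfl
  let G : Data ((Pl × (Pl × U)) × ℝ) (ι ⊕ ι) (Option κ) := G₁.union G₂ (by
    intro i j
    refine ⟨none, none, ((π i, (π j, 0)), 0), ?_, ?_, ?_, ?_⟩
    · intro x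
      rw [hG₁n, hG₂n]; ring
    · rw [hG₁n]; ring
    · intro q hq
      cases q with
      | none => exact absurd rfl hq
      | some q =>
        rw [hG₁, hF₁]
        simp only [mul_zero, zero_mul, sub_zero, smul_zero]
        exact h1 i j q
    · intro q hq
      cases q with
      | none => exact absurd rfl hq
      | some q =>
        rw [hG₂, hF₂]
        simp only [mul_zero, zero_mul, sub_zero, smul_zero]
        exact h1 j i q)
  -- the slope of the new plane
  have hev' : ∀ᶠ ε in nhdsWithin (0 : ℝ) (Set.Ioi 0), 0 < ε ∧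
      (∀ i r, 0 < D.f i r (π i, (μ • (π i + c), 0)) + ε * (-(((π i).1 + C) * F₁.f i r 0))) ∧
      (∀ i r, 0 < D.f i r (π i, (μ • (π i - c), 0)) + ε * (((π i).1 - C) * F₂.f i r 0)) := by
    refine Filter.Eventually.and self_mem_nhdsWithin (Filter.Eventually.and ?_ ?_)
    · rw [Filter.eventually_all]
      intro i
      rw [Filter.eventually_all]
      intro r
      exact small' _ (h2 i r)
    · rw [Filter.eventually_all]
      intro i
      rw [Filter.eventually_all]
      intro r
      exact small' _ (h3 i r)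
  obtain ⟨ε, hε, h4, h5⟩ := hev'.exists
  let D' : Data (Pl × (Pl × (U × ℝ))) (ι ⊕ ι) (Option κ) := G.transport
    (fun x => ((x.1, (x.2.1 + x.1 + c, x.2.2.1)), x.2.2.2 + ε * (x.1.1 + C)))
    (fun x => (x.1.1, (x.1.2.1 - x.1.1 - c, (x.1.2.2, x.2 - ε * (x.1.1.1 + C)))))
    (by
      intro x
      refine Prod.ext (Prod.ext rfl (Prod.ext ?_ rfl)) ?_
      · show x.1.2.1 - x.1.1 - c + x.1.1 + c = x.1.2.1
        abel
      · show x.2 - ε * (x.1.1.1 + C) + ε * (x.1.1.1 + C) = x.2
        ring)
    (by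
      intro x y s t h
      have ht : t = 1 - s := by linarith
      subst ht
      refine Prod.ext (Prod.ext rfl (Prod.ext ?_ rfl)) ?_
      · show (s • x.2.1 + (1 - s) • y.2.1) + (s • x.1 + (1 - s) • y.1) + c =
          s • (x.2.1 + x.1 + c) + (1 - s) • (y.2.1 + y.1 + c)
        module
      · show (s * x.2.2.2 + (1 - s) * y.2.2.2) + ε * ((s * x.1.1 + (1 - s) * y.1.1) + C) =
          s * (x.2.2.2 + ε * (x.1.1 + C)) + (1 - s) * (y.2.2.2 + ε * (y.1.1 + C))
        ring)
  refine ⟨D', ?_⟩
  intro i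
  cases i with
  | inl i =>
    refine ⟨π i, ?_⟩
    have hCi := abs_lt.1 (hC i)
    intro r
    cases r with
    | none =>
      show 0 < 1 * (0 + ε * ((π i).1 + C))
      have : 0 < ε * ((π i).1 + C) := mul_pos hε (by linarith [hCi.1])
      linarith
    | some r =>
      show 0 < D.f i r (π i, (μ • ((0 : Pl) + π i + c), μ • (0 : U))) -
        1 * (0 + ε * ((π i).1 + C)) * F₁.f i r 0
      rw [smul_zero, zero_add]
      have := h4 i r
      linarith
  | inr i =>
    refine ⟨π i - c, ?_⟩
    have hCi := abs_lt.1 (hC i)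
    have hfst : (π i - c).1 + C = (π i).1 - C := by
      rw [hc]
      show (π i).1 - 2 * C + C = (π i).1 - C
      ring
    intro r
    cases r with
    | none =>
      show 0 < (-1) * (0 + ε * ((π i - c).1 + C))
      rw [hfst]
      have : 0 < ε * (C - (π i).1) := mul_pos hε (by linarith [hCi.2])
      linarith
    | some r =>
      show 0 < D.f i r ((0 : Pl) + (π i - c) + c, (μ • (π i - c), μ • (0 : U))) -
        (-1) * (0 + ε * ((π i - c).1 + C)) * F₂.f i r 0
      rw [smul_zero, zero_add, sub_add_cancel, hfst]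
      have := h5 i r
      linarith

end General

section Base

/-- homogeneous integer coordinates of points of the plane in the interiors of the seventeen
simplices -/
def SP : Fin 17 → Fin 5 → ℤ :=
  ![![0, -1, 3, 1, 4], ![-1, -1, 6, 2, 4], ![5, 1, -11, 1, 3], ![2, -2, 1, 1, 9],
    ![-6, 2, 29, 21, 9], ![4, 1, -9, 1, 2], ![1, -1, 1, 1, 5], ![-2, -1, 11, 5, 6],
    ![1, 0, 1, 3, 4], ![3, -2, -5, -3, 6], ![4, -1, -7, -1, 6], ![2, -1, -3, -1, 4],
    ![1, -1, -1, -1, 3], ![2, -2, -1, -1, 7], ![0, -6, 11, -1, 17], ![0, -1, 1, -1, 2],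
    ![-2, -2, 7, -1, 3]]

lemma check_SP : ∀ i : Fin 17, 0 < SP i 4 ∧ SP i 2 = SP i 4 - 3 * SP i 0 + SP i 1 ∧
    SP i 3 = SP i 4 - SP i 0 + 3 * SP i 1 ∧ ∀ r, 0 < idot (A i r) (SP i) := by
  decide +kernel

lemma ev_aff {d : ℕ} (a : Fin d → ℝ) (b : ℝ) : Aff (ev a b) := by
  intro x y s t h
  rw [ev_eq, ev_eq, ev_eq, map_add, map_smul, map_smul, smul_eq_mul, smul_eq_mul]
  linear_combination (-b) * h

/-- the seventeen simplices of the starting file -/
noncomputable def base4 : Data (E 4) (Fin 17) (Fin 5) where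
  f i r := ev (nor (A i r)) ((A i r 4 : ℤ) : ℝ)
  p i := vert i
  aff i r := ev_aff _ _
  zero i r q h := (facets i).zero r q h
  pos i r := (facets i).pos r
  wall := by
    have main : ∀ i j : Fin 17, i < j → ∃ r r' c,
        (∀ x, ev (nor (A j r')) ((A j r' 4 : ℤ) : ℝ) x = - ev (nor (A i r)) ((A i r 4 : ℤ) : ℝ) x) ∧
        ev (nor (A i r)) ((A i r 4 : ℤ) : ℝ) c = 0 ∧
        (∀ q, q ≠ r → 0 < ev (nor (A i q)) ((A i q 4 : ℤ) : ℝ) c) ∧
        (∀ q, q ≠ r' → 0 < ev (nor (A j q)) ((A j q 4 : ℤ) : ℝ) c) := by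
      intro i j hij
      obtain ⟨h4, r, r', hneg, h0, h1, h2⟩ := check_pairs i j hij
      have h4' : (0 : ℝ) < (CP i j 4 : ℝ) := by exact_mod_cast h4
      refine ⟨r, r', pt (CP i j), ?_, ?_, ?_, ?_⟩
      · intro x
        rw [ev, ev, neg_add, ← Finset.sum_neg_distrib]
        congr 1
        · refine Finset.sum_congr rfl fun k _ => ?_
          simp only [nor]
          rw [hneg]
          push_cast
          ring
        · rw [hneg]
          push_cast
          ring
      · rw [ev_pt _ _ h4, h0, Int.cast_zero, zero_div]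
      · intro q hq
        rw [ev_pt _ _ h4]
        have : (0 : ℝ) < (idot (A i q) (CP i j) : ℝ) := by exact_mod_cast h1 q hq
        exact div_pos this h4'
      · intro q hq
        rw [ev_pt _ _ h4]
        have : (0 : ℝ) < (idot (A j q) (CP i j) : ℝ) := by exact_mod_cast h2 q hq
        exact div_pos this h4'
    intro i j hij
    rcases lt_or_gt_of_ne hij with h | h
    · exact main i j h
    · obtain ⟨r, r', c, h1, h2, h3, h4⟩ := main j i h
      refine ⟨r', r, c, ?_, ?_, h4, h3⟩
      · intro x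
        rw [h1]; ring
      · rw [h1, h2]; ring

/-- new coordinates in `ℝ ^ 4`, in which the plane is `Pl × 0` -/
noncomputable def toE4 (x : Pl × (Pl × PUnit)) : E 4 :=
  WithLp.toLp 2 ![x.1.1, x.1.2, 1 - 3 * x.1.1 + x.1.2 + x.2.1.1, 1 - x.1.1 + 3 * x.1.2 + x.2.1.2]

/-- the inverse of `toE4` -/
def ofE4 (x : E 4) : Pl × (Pl × PUnit) :=
  ((x 0, x 1), ((x 2 - (1 - 3 * x 0 + x 1), x 3 - (1 - x 0 + 3 * x 1)), PUnit.unit))

lemma toE4_ofE4 (x : E 4) : toE4 (ofE4 x) = x := by
  ext k
  fin_cases k <;> simp [toE4, ofE4]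

lemma toE4_aff : AffMap toE4 := by
  intro x y s t h
  have ht : t = 1 - s := by linarith
  subst ht
  ext k
  fin_cases k <;> simp [toE4] <;> ring

theorem base : ∃ D : Data (Pl × (Pl × PUnit)) (Fin 17) (Fin 5), Stab D := by
  refine ⟨base4.transport toE4 ofE4 toE4_ofE4 toE4_aff, ?_⟩
  intro i
  obtain ⟨h4, h2, h3, hr⟩ := check_SP i
  have h4' : (0 : ℝ) < (SP i 4 : ℝ) := by exact_mod_cast h4
  refine ⟨((SP i 0 : ℝ) / SP i 4, (SP i 1 : ℝ) / SP i 4), ?_⟩
  intro r
  have hpt : toE4 (((SP i 0 : ℝ) / SP i 4, (SP i 1 : ℝ) / SP i 4), 0) = pt (SP i) := by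
    have e2 : ((SP i 2 : ℤ) : ℝ) = SP i 4 - 3 * SP i 0 + SP i 1 := by rw [h2]; push_cast; ring
    have e3 : ((SP i 3 : ℤ) : ℝ) = SP i 4 - SP i 0 + 3 * SP i 1 := by rw [h3]; push_cast; ring
    have hne : (SP i 4 : ℝ) ≠ 0 := h4'.ne'
    ext k
    fin_cases k
    · rfl
    · rfl
    · show 1 - 3 * ((SP i 0 : ℝ) / SP i 4) + (SP i 1 : ℝ) / SP i 4 + 0 = (SP i 2 : ℝ) / SP i 4
      rw [e2]
      field_simp
      ring
    · show 1 - (SP i 0 : ℝ) / SP i 4 + 3 * ((SP i 1 : ℝ) / SP i 4) + 0 = (SP i 3 : ℝ) / SP i 4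
      rw [e3]
      field_simp
      ring
  show 0 < ev (nor (A i r)) ((A i r 4 : ℤ) : ℝ) (toE4 _)
  rw [hpt, ev_pt _ _ h4]
  have : (0 : ℝ) < (idot (A i r) (SP i) : ℝ) := by exact_mod_cast hr r
  exact div_pos this h4'

/-- `17 * 2 ^ k` simplices of dimension `k + 4`, in coordinates. -/
theorem iter (k : ℕ) : ∃ (U : Type) (_ : AddCommGroup U) (_ : Module ℝ U)
    (_ : FiniteDimensional ℝ U) (ι κ : Type) (_ : Fintype ι) (_ : Fintype κ)
    (D : Data (Pl × (Pl × U)) ι κ), Module.finrank ℝ U = k ∧ Fintype.card ι = 17 * 2 ^ k ∧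
      Fintype.card κ = k + 5 ∧ Stab D := by
  induction k with
  | zero =>
    obtain ⟨D, hD⟩ := base
    refine ⟨PUnit, inferInstance, inferInstance, inferInstance, Fin 17, Fin 5, inferInstance,
      inferInstance, D, ?_, ?_, ?_, hD⟩
    · exact Module.finrank_zero_of_subsingleton
    · simp
    · simp
  | succ k ih =>
    obtain ⟨U, iU1, iU2, iU3, ι, κ, iι, iκ, D, hU, hι, hκ, hD⟩ := ih
    obtain ⟨D', hD'⟩ := step D hD
    refine ⟨U × ℝ, inferInstance, inferInstance, inferInstance, ι ⊕ ι, Option κ, inferInstance,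
      inferInstance, D', ?_, ?_, ?_, hD'⟩
    · rw [Module.finrank_prod, hU, Module.finrank_self]
    · rw [Fintype.card_sum, hι, pow_succ]; ring
    · rw [Fintype.card_option, hκ]

end Base

section Final

/-- coefficients of an affine function -/
noncomputable def coefA {d : ℕ} (f : E d → ℝ) (k : Fin d) : ℝ :=
  f (EuclideanSpace.basisFun (Fin d) ℝ k) - f 0

lemma ev_coef {d : ℕ} (f : E d → ℝ) (hf : Aff f) (x : E d) : ev (coefA f) (f 0) x = f x := by
  have hadd : ∀ x y : E d, f (x + y) - f 0 = (f x - f 0) + (f y - f 0) := by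
    intro x y
    have h1 := hf x y (1 / 2) (1 / 2) (by norm_num)
    have h2 := hf ((1 / 2 : ℝ) • x + (1 / 2 : ℝ) • y) 0 2 (-1) (by norm_num)
    have h3 : (2 : ℝ) • ((1 / 2 : ℝ) • x + (1 / 2 : ℝ) • y) + (-1 : ℝ) • (0 : E d) = x + y := by
      rw [smul_add, smul_smul, smul_smul, smul_zero, add_zero]
      norm_num
    rw [h3, h1] at h2
    linarith
  have hsmul : ∀ (c : ℝ) (x : E d), f (c • x) - f 0 = c * (f x - f 0) := by
    intro c x
    have h1 := hf x 0 c (1 - c) (by ring)
    rw [smul_zero, add_zero] at h1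
    rw [h1]; ring
  let L : E d →ₗ[ℝ] ℝ :=
    { toFun := fun x => f x - f 0
      map_add' := hadd
      map_smul' := hsmul }
  have hL : L x = ∑ k, x k * (f (EuclideanSpace.basisFun (Fin d) ℝ k) - f 0) := by
    have h := (EuclideanSpace.basisFun (Fin d) ℝ).sum_repr x
    conv_lhs => rw [← h]
    rw [map_sum]
    refine Finset.sum_congr rfl fun k _ => ?_
    rw [map_smul, smul_eq_mul]
    rfl
  have hLx : L x = f x - f 0 := rfl
  rw [hLx] at hL
  rw [ev]
  have : ∑ k, coefA f k * x k = f x - f 0 := by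
    rw [hL]
    exact Finset.sum_congr rfl fun k _ => by rw [coefA]; ring
  linarith

theorem neighborly_of_data {d m : ℕ} (hd : 0 < d) (D : Data (E d) (Fin m) (Fin (d + 1))) :
    ∃ S : Fin m → Set (E d), Neighborly S := by
  have hfac : ∀ i, Facets (D.p i) (fun r => coefA (D.f i r)) (fun r => D.f i r 0) := by
    intro i
    constructor
    · intro r q h
      rw [ev_coef _ (D.aff i r)]
      exact D.zero i r q h
    · intro r
      rw [ev_coef _ (D.aff i r)]
      exact D.pos i r
  refine ⟨fun i => convexHull ℝ (Set.range (D.p i)),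
    fun i => ⟨D.p i, (hfac i).affineIndependent, rfl⟩, fun i j hij => ?_⟩
  obtain ⟨r, r', c, h1, h2, h3, h4⟩ := D.wall i j hij
  refine abut_of_data (hfac i) (hfac j) hd r r' ?_ (h1 0) c ?_ ?_ ?_
  · funext k
    show coefA (D.f j r') k = - coefA (D.f i r) k
    rw [coefA, coefA, h1, h1]
    ring
  · rw [ev_coef _ (D.aff i r)]; exact h2
  · intro q hq
    rw [ev_coef _ (D.aff i q)]; exact h3 q hq
  · intro q hq
    rw [ev_coef _ (D.aff j q)]; exact h4 q hq

/-- renaming the members and the facets -/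
def Data.reindex {V : Type} [AddCommGroup V] [Module ℝ V] {ι κ ι' κ' : Type} (D : Data V ι κ)
    (e : ι' ≃ ι) (g : κ' ≃ κ) : Data V ι' κ' where
  f i r := D.f (e i) (g r)
  p i r := D.p (e i) (g r)
  aff i r := D.aff _ _
  zero i r q h := D.zero _ _ _ (fun h' => h (g.injective h'))
  pos i r := D.pos _ _
  wall i j h := by
    obtain ⟨r, r', c, h1, h2, h3, h4⟩ := D.wall (e i) (e j) (fun h' => h (e.injective h'))
    refine ⟨g.symm r, g.symm r', c, ?_, ?_, ?_, ?_⟩
    · intro x
      rw [g.apply_symm_apply, g.apply_symm_apply]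
      exact h1 x
    · rw [g.apply_symm_apply]; exact h2
    · intro q hq
      exact h3 (g q) (fun h' => hq (by rw [← h', g.symm_apply_apply]))
    · intro q hq
      exact h4 (g q) (fun h' => hq (by rw [← h', g.symm_apply_apply]))

theorem exists_neighborly (d : ℕ) (hd : 4 ≤ d) :
    ∃ S : Fin (17 * 2 ^ (d - 4)) → Set (E d), Neighborly S := by
  obtain ⟨k, rfl⟩ : ∃ k, d = k + 4 := ⟨d - 4, by omega⟩
  obtain ⟨U, iU1, iU2, iU3, ι, κ, iι, iκ, D, hU, hι, hκ, -⟩ := iter k
  have hfr : Module.finrank ℝ (Pl × (Pl × U)) = Module.finrank ℝ (E (k + 4)) := by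
    simp only [Module.finrank_prod, hU, Module.finrank_self, finrank_euclideanSpace_fin]
    ring
  let e : (Pl × (Pl × U)) ≃ₗ[ℝ] E (k + 4) := LinearEquiv.ofFinrankEq _ _ hfr
  let D₁ : Data (E (k + 4)) ι κ := D.transport (fun x => e.symm x) (fun x => e x)
    (fun x => e.symm_apply_apply x) (by
      intro x y s t _
      show e.symm (s • x + t • y) = s • e.symm x + t • e.symm y
      rw [map_add, map_smul, map_smul])
  have e1 : Fintype.card (Fin (17 * 2 ^ (k + 4 - 4))) = Fintype.card ι := by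
    rw [Fintype.card_fin, hι, Nat.add_sub_cancel]
  have e2 : Fintype.card (Fin (k + 4 + 1)) = Fintype.card κ := by
    rw [Fintype.card_fin, hκ]
  exact neighborly_of_data (by omega) (D₁.reindex (Fintype.equivOfCardEq e1)
    (Fintype.equivOfCardEq e2))

/-- For every `d ≥ 4` there is a neighborly family of `17 * 2 ^ (d - 4)`, that is
`(17 / 16) * 2 ^ d`, `d`-simplices in `ℝ ^ d`. In particular in no dimension `d ≥ 4` is `2 ^ d` the
largest size of such a family. -/
theorem result :
    (∀ d : ℕ, 4 ≤ d → ∃ S : Fin (17 * 2 ^ (d - 4)) → Set (E d), Neighborly S) ∧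
    (∀ d : ℕ, 4 ≤ d → ¬ ∀ (m : ℕ) (S : Fin m → Set (E d)), Neighborly S → m ≤ 2 ^ d) := by
  refine ⟨exists_neighborly, ?_⟩
  intro d hd h
  obtain ⟨S, hS⟩ := exists_neighborly d hd
  have h1 := h _ S hS
  obtain ⟨k, rfl⟩ : ∃ k, d = k + 4 := ⟨d - 4, by omega⟩
  rw [Nat.add_sub_cancel, pow_add] at h1
  have : 0 < 2 ^ k := by positivity
  omega

end Final

end Pool.Agent.Results.MP_7876a1_co.AllDimensions
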